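import Mathlib

/-!
Simple random walks on finite directed graphs and hitting times of several independent walks:
definitions.
-/

open MeasureTheory ProbabilityTheory Finset
open scoped ENNReal

namespace Pool.Agent.H0.Hit

variable {V : Type*} [Fintype V] [DecidableEq V] [MeasurableSpace V] [MeasurableSingletonClass V]

/-- The directed graph with arc relation `G` is strongly connected. -/
def StronglyConnected (G : V → V → Prop) : Prop := ∀ u v, Relation.ReflTransGen G u v

open Classical in
/-- The out-neighbours of `u`. -/
noncomputable def outNbrs (G : V → V → Prop) (u : V) : Finset V := univ.filter (G u)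

open Classical in
/-- The law of one step of the simple random walk from `u`: uniform on the out-neighbours of `u`.
(If `u` has no out-neighbour, which in a strongly connected graph happens only when `u` is the
only vertex, the walk stays at `u`.) -/
noncomputable def stepLaw (G : V → V → Prop) (u : V) : PMF V :=
  if h : (outNbrs G u).Nonempty then PMF.uniformOfFinset (outNbrs G u) h else PMF.pure u

/-- The transition kernel: given the trajectory up to time `n`, the next position has law
`stepLaw` of the position at time `n`. -/
noncomputable def stepKernel (G : V → V → Prop) (n : ℕ) : Kernel (Π _ : Iic n, V) V where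
  toFun x := (stepLaw G (x ⟨n, mem_Iic.2 le_rfl⟩)).toMeasure
  measurable' := measurable_of_finite _

instance (G : V → V → Prop) (n : ℕ) : IsMarkovKernel (stepKernel G n) :=
  ⟨fun _ => by unfold stepKernel; exact PMF.toMeasure.isProbabilityMeasure _⟩

/-- The law of the simple random walk started at `u`, a measure on trajectories `ℕ → V`
(built with the Ionescu-Tulcea theorem). -/
noncomputable def walk (G : V → V → Prop) (u : V) : Measure (ℕ → V) :=
  Kernel.traj (X := fun _ => V) (stepKernel G) 0 (fun _ => u)

/-- The hitting time of `v` by a trajectory, `∞` if `v` is never visited. -/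
noncomputable def hit (v : V) (x : ℕ → V) : ℝ≥0∞ := ⨅ (t : ℕ) (_ : x t = v), (t : ℝ≥0∞)

/-- Expected hitting time `h(u, v)`. -/
noncomputable def h (G : V → V → Prop) (u v : V) : ℝ≥0∞ := ∫⁻ x, hit v x ∂walk G u

/-- `h_max`. -/
noncomputable def hmax (G : V → V → Prop) : ℝ≥0∞ := ⨆ (u : V) (v : V), h G u v

/-- Expected joint hitting time of `v` by `k` independent walks started at `us 0, ..., us (k-1)`. -/
noncomputable def hJoint (G : V → V → Prop) {k : ℕ} (us : Fin k → V) (v : V) : ℝ≥0∞ :=
  ∫⁻ x : Fin k → ℕ → V, ⨅ i, hit v (x i) ∂(Measure.pi fun i => walk G (us i))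

/-- `h_max^k`. -/
noncomputable def hkmax (G : V → V → Prop) (k : ℕ) : ℝ≥0∞ :=
  ⨆ (us : Fin k → V) (v : V), hJoint G us v

end Pool.Agent.H0.Hit
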