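import Pool.Agent.H0.Hit.Defs

open MeasureTheory ProbabilityTheory Finset
open scoped ENNReal

namespace Pool.Agent.H0.Hit

variable {V : Type*} [Fintype V] [DecidableEq V] [MeasurableSpace V] [MeasurableSingletonClass V]

instance (G : V → V → Prop) (u : V) : IsProbabilityMeasure (walk G u) := by
  unfold walk; infer_instance

/-- The trajectory avoids `v` up to time `t`. -/
def Alive (v : V) (t : ℕ) (x : ℕ → V) : Prop := ∀ i ≤ t, x i ≠ v

instance (v : V) (t : ℕ) (x : ℕ → V) : Decidable (Alive v t x) := by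
  unfold Alive; infer_instance

/-- The killed transition operator. -/
noncomputable def K (G : V → V → Prop) (v : V) (g : V → ℝ≥0∞) (u : V) : ℝ≥0∞ :=
  ∑ w, (if w = v then 0 else g w) * stepLaw G u w

theorem measurable_alive_fun (v : V) (t : ℕ) (g : V → ℝ≥0∞) :
    Measurable (fun x : ℕ → V => if Alive v t x then g (x t) else 0) := by
  refine Measurable.ite ?_ ?_ measurable_const
  · unfold Alive
    have : {x : ℕ → V | ∀ i ≤ t, x i ≠ v} = ⋂ i, ⋂ (_ : i ≤ t), (fun x : ℕ → V => x i) ⁻¹' {v}ᶜ := by
      ext x; simp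
    rw [this]
    exact MeasurableSet.iInter fun i => MeasurableSet.iInter fun _ =>
      (measurable_pi_apply i) (MeasurableSet.singleton v).compl
  · exact (measurable_of_finite g).comp (measurable_pi_apply t)

theorem lintegral_step (G : V → V → Prop) (t : ℕ) (y : Π _ : Iic t, V) (g : V → ℝ≥0∞) :
    ∫⁻ x, g (x (t + 1)) ∂(Kernel.traj (X := fun _ => V) (stepKernel G) t y)
      = ∑ w, g w * stepLaw G (y ⟨t, mem_Iic.2 le_rfl⟩) w := by
  have h0 := Kernel.map_traj_succ_self (X := fun _ => V) (κ := stepKernel G) (a := t)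
  have h1 : (Kernel.map (Kernel.traj (X := fun _ => V) (stepKernel G) t)
      (fun x => x (t + 1))) y = stepKernel G t y := by rw [h0]
  rw [Kernel.map_apply _ (measurable_pi_apply (t + 1))] at h1
  have h2 : ∫⁻ x, g (x (t + 1)) ∂(Kernel.traj (X := fun _ => V) (stepKernel G) t y)
      = ∫⁻ w, g w ∂(stepKernel G t y) := by
    rw [← h1, lintegral_map (measurable_of_finite g) (measurable_pi_apply (t + 1))]
  rw [h2, lintegral_fintype]
  refine Finset.sum_congr rfl fun w _ => ?_
  congr 1
  exact PMF.toMeasure_apply_singleton _ _ (MeasurableSet.singleton w)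

/-- One step of the killed walk. -/
theorem lintegral_alive_succ (G : V → V → Prop) (u v : V) (g : V → ℝ≥0∞) (t : ℕ) :
    ∫⁻ x, (if Alive v (t + 1) x then g (x (t + 1)) else 0) ∂walk G u
      = ∫⁻ x, (if Alive v t x then K G v g (x t) else 0) ∂walk G u := by
  unfold walk
  have hc := Kernel.traj_comp_partialTraj (X := fun _ => V) (κ := stepKernel G) (Nat.zero_le t)
  rw [← hc]
  rw [Kernel.lintegral_comp _ _ _ (measurable_alive_fun v (t + 1) g),
    Kernel.lintegral_comp _ _ _ (measurable_alive_fun v t _)]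
  refine lintegral_congr fun y => ?_
  rw [Kernel.lintegral_traj (X := fun _ => V) _ (measurable_alive_fun v (t + 1) g),
    Kernel.lintegral_traj (X := fun _ => V) _ (measurable_alive_fun v t _)]
  have hle : ∀ (x : ℕ → V) (i : ℕ) (hi : i ≤ t),
      Function.updateFinset x (Iic t) y i = y ⟨i, mem_Iic.2 hi⟩ := by
    intro x i hi
    simp [Function.updateFinset, hi]
  have hsucc : ∀ (x : ℕ → V), Function.updateFinset x (Iic t) y (t + 1) = x (t + 1) := by
    intro x
    simp [Function.updateFinset]
  by_cases hA : ∀ i : Iic t, y i ≠ v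
  · have e1 : ∀ x : ℕ → V, Alive v t (Function.updateFinset x (Iic t) y) := by
      intro x i hi
      rw [hle x i hi]; exact hA _
    have e2 : ∀ x : ℕ → V, (if Alive v (t + 1) (Function.updateFinset x (Iic t) y) then
        g (Function.updateFinset x (Iic t) y (t + 1)) else 0)
        = (fun w => if w = v then 0 else g w) (x (t + 1)) := by
      intro x
      by_cases hw : x (t + 1) = v
      · rw [if_neg]
        · simp [hw]
        · intro hh
          exact hh (t + 1) le_rfl (by rw [hsucc]; exact hw)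
      · rw [if_pos]
        · simp [hw, hsucc]
        · intro i hi
          rcases Nat.lt_or_ge t i with h' | h'
          · have : i = t + 1 := by omega
            subst this
            rw [hsucc]; exact hw
          · exact e1 x i h'
    simp_rw [e2]
    rw [lintegral_step G t y (fun w => if w = v then 0 else g w)]
    simp_rw [if_pos (e1 _), hle _ t le_rfl]
    simp [K]
  · push Not at hA
    obtain ⟨i, hi⟩ := hA
    have e1 : ∀ x : ℕ → V, ¬ Alive v t (Function.updateFinset x (Iic t) y) := by
      intro x hh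
      have := hh i.1 (mem_Iic.1 i.2)
      rw [hle x i.1 (mem_Iic.1 i.2)] at this
      exact this hi
    have e2 : ∀ x : ℕ → V, ¬ Alive v (t + 1) (Function.updateFinset x (Iic t) y) := by
      intro x hh
      exact e1 x fun i hi => hh i (by omega)
    simp_rw [if_neg (e1 _), if_neg (e2 _)]

theorem lintegral_alive_add (G : V → V → Prop) (u v : V) (t : ℕ) :
    ∀ (r : ℕ) (g : V → ℝ≥0∞),
    ∫⁻ x, (if Alive v (t + r) x then g (x (t + r)) else 0) ∂walk G u
      = ∫⁻ x, (if Alive v t x then (K G v)^[r] g (x t) else 0) ∂walk G u := by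
  intro r
  induction r with
  | zero => intro g; rfl
  | succ r ih =>
    intro g
    have := lintegral_alive_succ G u v g (t + r)
    rw [← add_assoc, this, ih (K G v g)]
    rfl

theorem lintegral_alive_zero (G : V → V → Prop) (u v : V) (g : V → ℝ≥0∞) :
    ∫⁻ x, (if Alive v 0 x then g (x 0) else 0) ∂walk G u = if u = v then 0 else g u := by
  unfold walk
  rw [Kernel.lintegral_traj (X := fun _ => V) _ (measurable_alive_fun v 0 g)]
  have h0 : ∀ (x : ℕ → V),
      Function.updateFinset x (Iic 0) (fun _ => u) 0 = u := by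
    intro x
    simp [Function.updateFinset]
  by_cases huv : u = v
  · have : ∀ x : ℕ → V, ¬ Alive v 0 (Function.updateFinset x (Iic 0) (fun _ => u)) := by
      intro x hh
      exact hh 0 le_rfl (by rw [h0]; exact huv)
    simp_rw [if_neg (this _)]
    simp [huv]
  · have : ∀ x : ℕ → V, Alive v 0 (Function.updateFinset x (Iic 0) (fun _ => u)) := by
      intro x i hi
      have : i = 0 := by omega
      subst this
      rw [h0]; exact huv
    simp_rw [if_pos (this _), h0]
    simp [huv]

/-- `P(ς(u, v) > t)`. -/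
noncomputable def surv (G : V → V → Prop) (v : V) (t : ℕ) (u : V) : ℝ≥0∞ :=
  ∫⁻ x, (if Alive v t x then 1 else 0) ∂walk G u

theorem surv_le_one (G : V → V → Prop) (v : V) (t : ℕ) (u : V) : surv G v t u ≤ 1 := by
  unfold surv
  calc _ ≤ ∫⁻ _, 1 ∂walk G u := lintegral_mono fun x => by split_ifs <;> simp
    _ = 1 := by simp

theorem surv_add (G : V → V → Prop) (u v : V) (t r : ℕ) :
    surv G v (t + r) u
      = ∫⁻ x, (if Alive v t x then (K G v)^[r] (fun _ => 1) (x t) else 0) ∂walk G u :=
  lintegral_alive_add G u v t r (fun _ => 1)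

theorem surv_eq (G : V → V → Prop) (u v : V) (r : ℕ) :
    surv G v r u = if u = v then 0 else (K G v)^[r] (fun _ => 1) u := by
  have := surv_add G u v 0 r
  rw [zero_add] at this
  rw [this, lintegral_alive_zero]

/-- The expected remaining time after `t`, truncated at `n`, is at most the maximal expected
truncated time multiplied by the probability of survival up to `t`. -/
theorem sum_Ico_surv_le (G : V → V → Prop) (v : V) (n : ℕ) (H : ℝ≥0∞)
    (hH : ∀ w, ∑ s ∈ range n, surv G v s w ≤ H) (u : V) (t : ℕ) :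
    ∑ s ∈ Ico t n, surv G v s u ≤ H * surv G v t u := by
  rw [Finset.sum_Ico_eq_sum_range]
  simp_rw [surv_add]
  rw [← lintegral_finsetSum _ (fun r _ => measurable_alive_fun v t _)]
  unfold surv
  rw [← lintegral_const_mul _ (measurable_alive_fun v t (fun _ => 1))]
  refine lintegral_mono fun x => ?_
  by_cases hA : Alive v t x
  · simp only [if_pos hA, mul_one]
    have hne : x t ≠ v := hA t le_rfl
    have e : ∀ r, (K G v)^[r] (fun _ => 1) (x t) = surv G v r (x t) := by
      intro r
      rw [surv_eq, if_neg hne]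
    simp_rw [e]
    refine le_trans ?_ (hH (x t))
    exact Finset.sum_le_sum_of_subset (Finset.range_mono (Nat.sub_le n t))
  · simp [if_neg hA]

/-- The real inequality behind the theorem. -/
theorem key (a : ℕ → ℝ) (n k : ℕ) (H : ℝ) (ha : ∀ t, 0 ≤ a t) (hk : 1 ≤ k)
    (hH : ∑ s ∈ range n, a s = H) (hrem : ∀ t < n, ∑ s ∈ Ico t n, a s ≤ H * a t) :
    H ≤ k * ∑ t ∈ range n, a t ^ k := by
  have hH0 : 0 ≤ H := by rw [← hH]; exact Finset.sum_nonneg fun _ _ => ha _
  rcases hH0.eq_or_lt with h0 | hpos
  · rw [← h0]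
    exact mul_nonneg (Nat.cast_nonneg _) (Finset.sum_nonneg fun t _ => pow_nonneg (ha t) _)
  obtain ⟨m, rfl⟩ : ∃ m, k = m + 1 := ⟨k - 1, by omega⟩
  set φ : ℕ → ℝ := fun t => ∑ s ∈ Ico t n, a s with hφ
  have hφ0 : ∀ t, 0 ≤ φ t := fun t => Finset.sum_nonneg fun _ _ => ha _
  have hstep : ∀ t < n, φ t = a t + φ (t + 1) := by
    intro t ht
    simp only [hφ]
    rw [Finset.sum_eq_sum_Ico_succ_bot ht]
  have hn : φ n = 0 := by simp [hφ]
  have hzero : φ 0 = H := by simp only [hφ]; rw [← hH, Finset.range_eq_Ico]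
  have hpt : ∀ t < n, φ t ^ (m + 1) - φ (t + 1) ^ (m + 1) ≤ (m + 1) * H ^ m * a t ^ (m + 1) := by
    intro t ht
    have h1 := hstep t ht
    have h2 : φ (t + 1) ≤ φ t := by rw [h1]; linarith [ha t]
    have h3 : φ t ^ (m + 1) - φ (t + 1) ^ (m + 1) ≤ (m + 1) * φ t ^ m * (φ t - φ (t + 1)) := by
      have hg := (Commute.all (φ t) (φ (t + 1))).geom_sum₂_mul (m + 1)
      rw [← hg]
      have hb : ∑ i ∈ range (m + 1), φ t ^ i * φ (t + 1) ^ (m + 1 - 1 - i)
          ≤ (m + 1) * φ t ^ m := by
        calc ∑ i ∈ range (m + 1), φ t ^ i * φ (t + 1) ^ (m + 1 - 1 - i)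
            ≤ ∑ i ∈ range (m + 1), φ t ^ m := by
              refine Finset.sum_le_sum fun i hi => ?_
              have hi' : i ≤ m := by simpa [Nat.lt_succ_iff] using hi
              calc φ t ^ i * φ (t + 1) ^ (m + 1 - 1 - i)
                  ≤ φ t ^ i * φ t ^ (m + 1 - 1 - i) :=
                    mul_le_mul_of_nonneg_left (pow_le_pow_left₀ (hφ0 _) h2 _)
                      (pow_nonneg (hφ0 _) _)
                _ = φ t ^ m := by rw [← pow_add]; congr 1; omega
          _ = (m + 1) * φ t ^ m := by simp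
      exact mul_le_mul_of_nonneg_right hb (by linarith)
    have h4 : φ t - φ (t + 1) = a t := by linarith
    rw [h4] at h3
    refine h3.trans ?_
    have h5 : φ t ^ m ≤ (H * a t) ^ m := pow_le_pow_left₀ (hφ0 t) (hrem t ht) m
    calc (m + 1) * φ t ^ m * a t ≤ (m + 1) * (H * a t) ^ m * a t := by
          refine mul_le_mul_of_nonneg_right ?_ (ha t)
          exact mul_le_mul_of_nonneg_left h5 (by positivity)
      _ = (m + 1) * H ^ m * a t ^ (m + 1) := by rw [mul_pow]; ring
  have hsum : ∑ t ∈ range n, (φ t ^ (m + 1) - φ (t + 1) ^ (m + 1)) = H ^ (m + 1) := by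
    rw [Finset.sum_range_sub', hn, hzero]; simp
  have hfin : H ^ (m + 1) ≤ (m + 1) * H ^ m * ∑ t ∈ range n, a t ^ (m + 1) := by
    rw [← hsum, Finset.mul_sum]
    exact Finset.sum_le_sum fun t ht => hpt t (Finset.mem_range.1 ht)
  have hHm : 0 < H ^ m := pow_pos hpos m
  have : H ^ m * H ≤ H ^ m * ((m + 1) * ∑ t ∈ range n, a t ^ (m + 1)) := by
    calc H ^ m * H = H ^ (m + 1) := by ring
      _ ≤ _ := hfin
      _ = _ := by ring
  have := le_of_mul_le_mul_left this hHm
  push_cast
  exact this

/-- The tail-sum formula for the hitting time of one trajectory. -/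
theorem hit_eq_tsum (v : V) (x : ℕ → V) : hit v x = ∑' t, if Alive v t x then (1 : ℝ≥0∞) else 0 := by
  classical
  by_cases hex : ∃ t, x t = v
  · have hT := Nat.find_spec hex
    set T := Nat.find hex with hTdef
    have hmin : ∀ s, x s = v → T ≤ s := fun s hs => Nat.find_min' hex hs
    have h1 : hit v x = T := by
      unfold hit
      refine le_antisymm (iInf₂_le T hT) (le_iInf₂ fun s hs => ?_)
      exact_mod_cast hmin s hs
    have h2 : ∀ t, Alive v t x ↔ t < T := by
      intro t
      constructor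
      · intro hA
        by_contra hcon
        exact hA T (not_lt.mp hcon) hT
      · intro ht i hi hxi
        have := hmin i hxi
        omega
    rw [h1]
    simp_rw [h2]
    rw [tsum_eq_sum (s := range T)]
    · rw [Finset.sum_congr rfl (fun t ht => if_pos (Finset.mem_range.1 ht))]
      simp
    · intro t ht
      rw [if_neg (by simpa using ht)]
  · push Not at hex
    have h1 : hit v x = ⊤ := by
      unfold hit
      simp [hex]
    have h2 : ∀ t, Alive v t x := fun t i _ => hex i
    rw [h1]
    simp_rw [if_pos (h2 _)]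
    exact (ENNReal.tsum_const_eq_top_of_ne_zero one_ne_zero).symm

theorem h_eq_tsum (G : V → V → Prop) (u v : V) : h G u v = ∑' t, surv G v t u := by
  unfold h surv
  simp_rw [hit_eq_tsum]
  exact lintegral_tsum fun t => (measurable_alive_fun v t (fun _ => 1)).aemeasurable

theorem measurableSet_alive (v : V) (t : ℕ) : MeasurableSet {x : ℕ → V | Alive v t x} := by
  have : {x : ℕ → V | Alive v t x} = ⋂ i, ⋂ (_ : i ≤ t), (fun x : ℕ → V => x i) ⁻¹' {v}ᶜ := by
    ext x; simp [Alive]
  rw [this]
  exact MeasurableSet.iInter fun i => MeasurableSet.iInter fun _ =>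
    (measurable_pi_apply i) (MeasurableSet.singleton v).compl

theorem surv_eq_measure (G : V → V → Prop) (v : V) (t : ℕ) (u : V) :
    surv G v t u = walk G u {x | Alive v t x} := by
  unfold surv
  rw [← lintegral_indicator_one (measurableSet_alive v t)]
  refine lintegral_congr fun x => ?_
  simp [Set.indicator_apply]

theorem tsum_pow_le_hJoint (G : V → V → Prop) (u v : V) (k : ℕ) :
    ∑' t, surv G v t u ^ k ≤ hJoint G (fun _ : Fin k => u) v := by
  unfold hJoint
  have h1 : ∀ t, surv G v t u ^ k = ∫⁻ x : Fin k → ℕ → V,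
      Set.indicator {x : Fin k → ℕ → V | ∀ i, Alive v t (x i)} (fun _ => (1 : ℝ≥0∞)) x
        ∂(Measure.pi fun _ : Fin k => walk G u) := by
    intro t
    have hset : {x : Fin k → ℕ → V | ∀ i, Alive v t (x i)}
        = Set.pi Set.univ (fun _ => {x : ℕ → V | Alive v t x}) := by
      ext x; simp [Set.mem_pi]
    rw [hset, lintegral_indicator (MeasurableSet.univ_pi fun _ => measurableSet_alive v t)]
    simp [Measure.pi_pi, surv_eq_measure]
  simp_rw [h1]
  rw [← lintegral_tsum]
  · refine lintegral_mono fun x => le_iInf fun i => ?_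
    rw [hit_eq_tsum]
    refine ENNReal.tsum_le_tsum fun t => ?_
    by_cases hx : ∀ j, Alive v t (x j)
    · rw [Set.indicator_of_mem (by exact hx), if_pos (hx i)]
    · rw [Set.indicator_of_notMem (by exact hx)]; exact zero_le
  · intro t
    refine (measurable_const.indicator ?_).aemeasurable
    have hset : {x : Fin k → ℕ → V | ∀ i, Alive v t (x i)}
        = Set.pi Set.univ (fun _ => {x : ℕ → V | Alive v t x}) := by
      ext x; simp [Set.mem_pi]
    rw [hset]
    exact MeasurableSet.univ_pi fun _ => measurableSet_alive v t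

/-- The inequality for truncated expectations. -/
theorem trunc_le (G : V → V → Prop) (v : V) (n k : ℕ) (hk : 1 ≤ k) (w : V) :
    ∑ s ∈ range n, surv G v s w ≤ k * hkmax G k := by
  have hne : (univ : Finset V).Nonempty := ⟨w, mem_univ w⟩
  obtain ⟨u, -, hu⟩ := Finset.exists_max_image univ (fun u => ∑ s ∈ range n, surv G v s u) hne
  have hu' : ∀ w, ∑ s ∈ range n, surv G v s w ≤ ∑ s ∈ range n, surv G v s u :=
    fun w => hu w (mem_univ w)
  refine (hu' w).trans ?_
  set a : ℕ → ℝ := fun t => (surv G v t u).toReal with ha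
  have hfin : ∀ t, surv G v t u ≠ ⊤ := fun t =>
    ne_top_of_le_ne_top ENNReal.one_ne_top (surv_le_one G v t u)
  have hofa : ∀ t, ENNReal.ofReal (a t) = surv G v t u := fun t => ENNReal.ofReal_toReal (hfin t)
  have ha0 : ∀ t, 0 ≤ a t := fun t => ENNReal.toReal_nonneg
  have hsumfin : ∀ s : Finset ℕ, ∑ t ∈ s, surv G v t u = ENNReal.ofReal (∑ t ∈ s, a t) := by
    intro s
    rw [ENNReal.ofReal_sum_of_nonneg fun t _ => ha0 t]
    exact Finset.sum_congr rfl fun t _ => (hofa t).symm
  have hkey := key a n k (∑ s ∈ range n, a s) ha0 hk rfl (by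
    intro t _
    have h1 := sum_Ico_surv_le G v n _ hu' u t
    rw [hsumfin, hsumfin, ← hofa t, ← ENNReal.ofReal_mul (Finset.sum_nonneg fun _ _ => ha0 _)] at h1
    exact (ENNReal.ofReal_le_ofReal_iff
      (mul_nonneg (Finset.sum_nonneg fun _ _ => ha0 _) (ha0 t))).1 h1)
  rw [hsumfin]
  calc ENNReal.ofReal (∑ t ∈ range n, a t)
      ≤ ENNReal.ofReal (k * ∑ t ∈ range n, a t ^ k) := ENNReal.ofReal_le_ofReal hkey
    _ = k * ∑ t ∈ range n, surv G v t u ^ k := by
        rw [ENNReal.ofReal_mul (Nat.cast_nonneg k), ENNReal.ofReal_natCast,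
          ENNReal.ofReal_sum_of_nonneg fun t _ => pow_nonneg (ha0 t) k]
        congr 1
        refine Finset.sum_congr rfl fun t _ => ?_
        rw [ENNReal.ofReal_pow (ha0 t), hofa]
    _ ≤ k * ∑' t, surv G v t u ^ k := by gcongr; exact ENNReal.sum_le_tsum _
    _ ≤ k * hkmax G k := by
        gcongr
        exact (tsum_pow_le_hJoint G u v k).trans
          (le_iSup₂ (f := fun (us : Fin k → V) (v : V) => hJoint G us v) (fun _ => u) v)

theorem hmax_le (G : V → V → Prop) (k : ℕ) (hk : 1 ≤ k) : hmax G ≤ k * hkmax G k := by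
  unfold hmax
  refine iSup₂_le fun u v => ?_
  rw [h_eq_tsum, ENNReal.tsum_eq_iSup_nat]
  exact iSup_le fun n => trunc_le G v n k hk u

end Pool.Agent.H0.Hit
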